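import Pool.Agent.Helper6.AK.DGoals

/-! Packet AKD-HIT: the words `y z ^ j` hit the class. -/

namespace Pool.Agent.Helper16.AK.HIT

open Matrix Equiv Filter Topology Pool.Agent.Helper15.An Pool.Agent.Helper6.FixK
  Pool.Agent.Helper6.T5 Pool.Agent.Helper6.W Pool.Agent.Helper6.AK

/-- The class is invariant under conjugation. -/
theorem ecs_conj {n S : ℕ} (σ : Perm (Fin n)) (g h : Alt n)
    (hh : (h : Perm (Fin n)) = σ * g * σ⁻¹) (hg : g ∈ EcS n S) : h ∈ EcS n S := by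
  classical
  unfold EcS at hg ⊢
  rw [Finset.mem_filter] at hg ⊢
  refine ⟨Finset.mem_univ _, ?_⟩
  have h1 : (h : Perm (Fin n)).cycleType = (g : Perm (Fin n)).cycleType := by
    rw [hh, Equiv.Perm.cycleType_conj]
  rw [h1]
  exact hg.2

/-- Markov: few `z` have many fixed points of `z ^ m`. -/
theorem markov (hfixp : S_FIXP) {n : ℕ} (hn : 2 ≤ n) (m : ℕ) (hm : 0 < m) :
    (((Finset.univ.filter fun z : Alt n =>
      (n : ℝ) < (fixc ((z : Perm (Fin n)) ^ m) : ℝ) ^ 2).card : ℕ) : ℝ) * Real.sqrt n ≤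
      2 * m * (Fintype.card (Alt n) : ℝ) := by
  classical
  have h1 : ((∑ z : Alt n, fixc ((z : Perm (Fin n)) ^ m) : ℕ) : ℝ) ≤
      ((2 * m * Fintype.card (Alt n) : ℕ) : ℝ) := by
    exact_mod_cast hfixp hn m hm
  push_cast at h1
  refine le_trans ?_ h1
  rw [← nsmul_eq_mul]
  refine (Finset.card_nsmul_le_sum _ (fun z : Alt n =>
    (fixc ((z : Perm (Fin n)) ^ m) : ℝ)) _ ?_).trans
    (Finset.sum_le_sum_of_subset_of_nonneg (Finset.filter_subset _ _)
      fun _ _ _ => Nat.cast_nonneg _)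
  intro z hz
  have h2 := (Finset.mem_filter.1 hz).2
  rw [Real.sqrt_le_left (Nat.cast_nonneg _)]
  exact h2.le

/-- The `z` with many fixed points of some power. -/
noncomputable def bad (n J : ℕ) : Finset (Alt n) := by
  classical
  exact Finset.univ.filter fun z : Alt n => ∃ m : ℕ, 0 < m ∧ m < J ∧
    (n : ℝ) < (fixc ((z : Perm (Fin n)) ^ m) : ℝ) ^ 2

theorem bad_card (hfixp : S_FIXP) {n : ℕ} (hn : 2 ≤ n) (J : ℕ) :
    ((bad n J).card : ℝ) * Real.sqrt n ≤ (J : ℝ) ^ 2 * 2 * Fintype.card (Alt n) := by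
  classical
  have hsub : bad n J ⊆ (Finset.range J).biUnion (fun m => if 0 < m then
      (Finset.univ.filter fun z : Alt n =>
        (n : ℝ) < (fixc ((z : Perm (Fin n)) ^ m) : ℝ) ^ 2) else ∅) := by
    intro z hz
    unfold bad at hz
    obtain ⟨-, m, h1, h2, h3⟩ := Finset.mem_filter.1 hz
    rw [Finset.mem_biUnion]
    refine ⟨m, Finset.mem_range.2 h2, ?_⟩
    rw [if_pos h1]
    exact Finset.mem_filter.2 ⟨Finset.mem_univ _, h3⟩
  have h1 : ((bad n J).card : ℝ) ≤ ∑ m ∈ Finset.range J, (((if 0 < m then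
      (Finset.univ.filter fun z : Alt n =>
        (n : ℝ) < (fixc ((z : Perm (Fin n)) ^ m) : ℝ) ^ 2) else ∅) : Finset (Alt n)).card : ℝ) := by
    exact_mod_cast (Finset.card_le_card hsub).trans Finset.card_biUnion_le
  have hs := Real.sqrt_nonneg (n : ℝ)
  calc ((bad n J).card : ℝ) * Real.sqrt n ≤ (∑ m ∈ Finset.range J, (((if 0 < m then
      (Finset.univ.filter fun z : Alt n =>
        (n : ℝ) < (fixc ((z : Perm (Fin n)) ^ m) : ℝ) ^ 2) else ∅) :
          Finset (Alt n)).card : ℝ)) * Real.sqrt n := mul_le_mul_of_nonneg_right h1 hs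
    _ ≤ ∑ m ∈ Finset.range J, 2 * (J : ℝ) * Fintype.card (Alt n) := by
      rw [Finset.sum_mul]
      refine Finset.sum_le_sum fun m hm => ?_
      have hmJ : (m : ℝ) ≤ J := by exact_mod_cast (Finset.mem_range.1 hm).le
      have hA : (0 : ℝ) ≤ Fintype.card (Alt n) := Nat.cast_nonneg _
      by_cases h0 : 0 < m
      · rw [if_pos h0]
        refine (markov hfixp hn m h0).trans ?_
        gcongr
      · rw [if_neg h0]
        simp only [Finset.card_empty, Nat.cast_zero, zero_mul]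
        positivity
    _ = _ := by
      rw [Finset.sum_const, Finset.card_range, nsmul_eq_mul]
      ring

/-- The count of the pairs. -/
theorem count (A : Type) [Fintype A] (P : A → A → Prop) (bad : Finset A) (c : ℝ) (hc : 0 ≤ c)
    (h : ∀ z, z ∉ bad → (Nat.card {y : A // P y z} : ℝ) ≤ c) :
    (Nat.card {b : A × A // P b.1 b.2} : ℝ) ≤
      bad.card * Fintype.card A + Fintype.card A * c := by
  classical
  have h1 : (Nat.card {b : A × A // P b.1 b.2} : ℝ) = ∑ z : A, (Nat.card {y : A // P y z} : ℝ) := by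
    have e : {b : A × A // P b.1 b.2} ≃ (Σ z : A, {y : A // P y z}) :=
      { toFun := fun b => ⟨b.1.2, b.1.1, b.2⟩
        invFun := fun s => ⟨(s.2.1, s.1), s.2.2⟩
        left_inv := fun b => rfl
        right_inv := fun s => rfl }
    rw [Nat.card_congr e, Nat.card_sigma]
    push_cast
    rfl
  rw [h1, ← Finset.sum_add_sum_compl bad]
  have h2 : ∑ z ∈ bad, (Nat.card {y : A // P y z} : ℝ) ≤ bad.card * Fintype.card A := by
    rw [← nsmul_eq_mul]
    refine Finset.sum_le_card_nsmul _ _ _ fun z _ => ?_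
    have : Nat.card {y : A // P y z} ≤ Nat.card A := Nat.card_le_card_of_injective
      (fun y => y.1) Subtype.val_injective
    rw [Nat.card_eq_fintype_card (α := A)] at this
    exact_mod_cast this
  have h3 : ∑ z ∈ badᶜ, (Nat.card {y : A // P y z} : ℝ) ≤ Fintype.card A * c := by
    have h4 : ∑ z ∈ badᶜ, (Nat.card {y : A // P y z} : ℝ) ≤ (badᶜ).card • c :=
      Finset.sum_le_card_nsmul _ _ _ fun z hz => h z (Finset.mem_compl.1 hz)
    refine h4.trans ?_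
    rw [nsmul_eq_mul]
    refine mul_le_mul_of_nonneg_right ?_ hc
    exact_mod_cast Finset.card_le_univ _
  linarith

/-- The numerical facts. -/
theorem nums (e : ℝ) (he : 0 < e) (he1 : e ≤ 1 / 12) : ∀ᶠ n : ℕ in atTop,
    ∃ t q : ℝ, 4 ≤ t ∧ (n : ℝ) ^ (-e) = 1 / t ∧ q = Real.sqrt n ∧ t ^ 6 ≤ q ∧
      0 < ⌈(n : ℝ) ^ (2 * e)⌉₊ ∧
      t ^ 2 ≤ ((⌈(n : ℝ) ^ (2 * e)⌉₊ : ℕ) : ℝ) ∧ ((⌈(n : ℝ) ^ (2 * e)⌉₊ : ℕ) : ℝ) ≤ 2 * t ^ 2 ∧
      64 ≤ ⌊(n : ℝ) ^ (1 - e)⌋₊ ∧ 64 * n ≤ ⌊(n : ℝ) ^ (1 - e)⌋₊ ^ 2 ∧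
      4 * ⌊(n : ℝ) ^ (1 - e)⌋₊ ≤ n ∧ (n : ℝ) ≤ 2 * t * ((⌊(n : ℝ) ^ (1 - e)⌋₊ : ℕ) : ℝ) ∧
      (n : ℝ) ^ (-(1 / 4) : ℝ) ≤ 1 / t ^ 2 := by
  have ht1 : ∀ᶠ n : ℕ in atTop, (4 : ℝ) ≤ (n : ℝ) ^ e :=
    ((tendsto_rpow_atTop he).comp tendsto_natCast_atTop_atTop).eventually_ge_atTop 4
  filter_upwards [ht1, eventually_ge_atTop 65536] with n ht hn
  have hx : (65536 : ℝ) ≤ n := by exact_mod_cast hn
  have hx0 : (0 : ℝ) < n := by linarith
  have hx1 : (1 : ℝ) ≤ n := by linarith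
  set x : ℝ := (n : ℝ) with hxdef
  set t : ℝ := x ^ e with htdef
  have ht0 : 0 < t := by linarith
  have h12 : t ^ 12 ≤ x := by
    rw [htdef, ← Real.rpow_natCast, ← Real.rpow_mul hx0.le]
    calc x ^ (e * ((12 : ℕ) : ℝ)) ≤ x ^ (1 : ℝ) :=
          Real.rpow_le_rpow_of_exponent_le hx1 (by push_cast; linarith)
      _ = x := Real.rpow_one x
  have h6 : t ^ 6 ≤ Real.sqrt x := by
    apply Real.le_sqrt_of_sq_le
    calc (t ^ 6) ^ 2 = t ^ 12 := by ring
      _ ≤ x := h12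
  have h2e : x ^ (2 * e) = t ^ 2 := by
    rw [htdef, ← Real.rpow_natCast, ← Real.rpow_mul hx0.le]
    congr 1
    push_cast
    ring
  have h1e : x ^ (1 - e) = x / t := by
    rw [Real.rpow_sub hx0, Real.rpow_one]
  have hxt : 256 ≤ x / t := by
    rw [le_div_iff₀ ht0]
    have h7 : t ^ 2 ≤ Real.sqrt x := by
      refine le_trans ?_ h6
      exact pow_le_pow_right₀ (by linarith) (by norm_num)
    have h8 : Real.sqrt x ^ 2 = x := Real.sq_sqrt hx0.le
    have h9 : (256 : ℝ) ≤ Real.sqrt x := by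
      apply Real.le_sqrt_of_sq_le
      linarith
    nlinarith [Real.sqrt_nonneg x]
  have hSfl : x / t - 1 < ((⌊x ^ (1 - e)⌋₊ : ℕ) : ℝ) := by
    rw [h1e]
    have := Nat.lt_floor_add_one (x / t)
    linarith
  have hSle : ((⌊x ^ (1 - e)⌋₊ : ℕ) : ℝ) ≤ x / t := by
    rw [h1e]
    exact Nat.floor_le (by positivity)
  have hShalf : x / t ≤ 2 * ((⌊x ^ (1 - e)⌋₊ : ℕ) : ℝ) := by linarith
  refine ⟨t, Real.sqrt x, ht, ?_, rfl, h6, ?_, ?_, ?_, ?_, ?_, ?_, ?_, ?_⟩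
  · rw [Real.rpow_neg hx0.le, one_div]
  · rw [Nat.ceil_pos]
    positivity
  · rw [← h2e]
    exact Nat.le_ceil _
  · rw [h2e]
    have := (Nat.ceil_lt_add_one (a := t ^ 2) (by positivity)).le
    nlinarith
  · have : (64 : ℝ) ≤ ((⌊x ^ (1 - e)⌋₊ : ℕ) : ℝ) := by linarith
    exact_mod_cast this
  · have h7 : (64 : ℝ) * x ≤ ((⌊x ^ (1 - e)⌋₊ : ℕ) : ℝ) ^ 2 := by
      have h8 : (x / t) ^ 2 ≤ (2 * ((⌊x ^ (1 - e)⌋₊ : ℕ) : ℝ)) ^ 2 :=
        pow_le_pow_left₀ (by positivity) hShalf 2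
      have h9 : 256 * x ≤ (x / t) ^ 2 := by
        rw [div_pow, le_div_iff₀ (by positivity)]
        have h10 : 256 * t ^ 2 ≤ x := by
          have h11 : (256 : ℝ) ≤ Real.sqrt x := by
            apply Real.le_sqrt_of_sq_le
            linarith
          have h12 : t ^ 2 ≤ Real.sqrt x := by
            refine le_trans ?_ h6
            exact pow_le_pow_right₀ (by linarith) (by norm_num)
          have h13 : Real.sqrt x ^ 2 = x := Real.sq_sqrt hx0.le
          nlinarith [Real.sqrt_nonneg x, sq_nonneg t]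
        nlinarith
      nlinarith
    have h8 : ((64 * n : ℕ) : ℝ) ≤ ((⌊x ^ (1 - e)⌋₊ ^ 2 : ℕ) : ℝ) := by
      push_cast
      exact h7
    exact_mod_cast h8
  · have h7 : 4 * ((⌊x ^ (1 - e)⌋₊ : ℕ) : ℝ) ≤ x := by
      have h8 : x / t ≤ x / 4 := div_le_div_of_nonneg_left hx0.le (by norm_num) ht
      linarith
    have h8 : ((4 * ⌊x ^ (1 - e)⌋₊ : ℕ) : ℝ) ≤ ((n : ℕ) : ℝ) := by
      push_cast
      exact h7
    exact_mod_cast h8
  · have h7 := (div_le_iff₀ ht0).1 hShalf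
    linarith
  · have h7 : x ^ (-(1 / 4) : ℝ) ≤ x ^ (-(2 * e)) :=
      Real.rpow_le_rpow_of_exponent_le hx1 (by linarith)
    rw [Real.rpow_neg hx0.le (2 * e), h2e, ← one_div] at h7
    exact h7

/-- Packet HIT. -/
theorem thm (hcec : Pool.Agent.Helper6.AK.S_CEC) (hsm : Pool.Agent.Helper6.AK.S_SM)
    (hchr : Pool.Agent.Helper6.AK.S_CHR) (hfixp : Pool.Agent.Helper6.AK.S_FIXP) :
    Pool.Agent.Helper6.AK.S_HIT := by
  classical
  intro e he he1
  filter_upwards [nums e he he1, hchr, eventually_ge_atTop 2] with n hnum hch hn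
  obtain ⟨t, q, ht, hinv, hq, htq, hJ0, hJ1, hJ2, hS1, hS2, hS3, hS4, hη⟩ := hnum
  set J : ℕ := ⌈(n : ℝ) ^ (2 * e)⌉₊ with hJdef
  set S : ℕ := ⌊(n : ℝ) ^ (1 - e)⌋₊ with hSdef
  set N : ℝ := (Fintype.card (Alt n) : ℝ) with hN
  have hN0 : 0 < N := card_pos' (Alt n)
  have ht0 : 0 < t := by linarith
  obtain ⟨F⟩ := exists_pw (Perm (Fin n))
  have hcard := hcec hS1 hS2 hS3
  have hcardR : (S : ℝ) * N ≤ 8 * n * ((EcS n S).card : ℝ) := by
    have h : ((S * Fintype.card (Alt n) : ℕ) : ℝ) ≤ ((8 * n * (EcS n S).card : ℕ) : ℝ) :=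
      Nat.cast_le.2 hcard
    push_cast at h
    exact h
  have hSpos : (0 : ℝ) < S := by
    have : 0 < S := by omega
    exact_mod_cast this
  have hnpos : (0 : ℝ) < n := by
    have : 0 < n := by omega
    exact_mod_cast this
  -- the bound for good `z`
  have hgood : ∀ z : Alt n, z ∉ bad n J →
      (Nat.card {y : Alt n // ∀ j < J, y * z ^ j ∉ EcS n S} : ℝ) ≤ N * (32 / t) := by
    intro z hz
    have hz' : ∀ m : ℕ, 0 < m → m < J → (fixc ((z : Perm (Fin n)) ^ m) : ℝ) ^ 2 ≤ n := by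
      intro m h1 h2
      by_contra h3
      push Not at h3
      apply hz
      unfold bad
      exact Finset.mem_filter.2 ⟨Finset.mem_univ _, m, h1, h2, h3⟩
    have hB := hsm F hn z J hJ0 ((n : ℝ) ^ (-(1 / 4) : ℝ)) (by positivity)
      (fun i hi m h1 h2 => hch F i hi _ (hz' m h1 h2)) (EcS n S)
      (fun σ g h hh hg => ecs_conj σ g h hh hg)
      (Finset.univ.filter fun y : Alt n => ∀ j < J, y * z ^ j ∉ EcS n S)
      (fun y hy => (Finset.mem_filter.1 hy).2)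
    have hcd : (Nat.card {y : Alt n // ∀ j < J, y * z ^ j ∉ EcS n S} : ℝ) =
        ((Finset.univ.filter fun y : Alt n => ∀ j < J, y * z ^ j ∉ EcS n S).card : ℝ) := by
      rw [Nat.card_eq_fintype_card, Fintype.card_subtype]
    rw [hcd]
    set B : ℝ := ((Finset.univ.filter fun y : Alt n => ∀ j < J, y * z ^ j ∉ EcS n S).card : ℝ)
      with hBdef
    have hB0 : 0 ≤ B := Nat.cast_nonneg _
    rw [← hN] at hB
    have hη2 : 1 / (J : ℝ) + (n : ℝ) ^ (-(1 / 4) : ℝ) ≤ 2 / t ^ 2 := by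
      have h1 : 1 / (J : ℝ) ≤ 1 / t ^ 2 := one_div_le_one_div_of_le (by positivity) hJ1
      have h2 : 1 / t ^ 2 + 1 / t ^ 2 = 2 / t ^ 2 := by ring
      linarith
    -- `B * S * N ≤ B * 8 n E ≤ 8 n N ^ 2 (2 / t ^ 2) ≤ 16 t S N ^ 2 * 2 / t ^ 2`
    have h1 : B * (S * N) ≤ 8 * n * (N ^ 2 * (2 / t ^ 2)) := by
      calc B * (S * N) ≤ B * (8 * n * ((EcS n S).card : ℝ)) :=
            mul_le_mul_of_nonneg_left hcardR hB0
        _ = 8 * n * (B * ((EcS n S).card : ℝ)) := by ring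
        _ ≤ 8 * n * (N ^ 2 * (1 / J + (n : ℝ) ^ (-(1 / 4) : ℝ))) :=
            mul_le_mul_of_nonneg_left hB (by positivity)
        _ ≤ 8 * n * (N ^ 2 * (2 / t ^ 2)) := by
            refine mul_le_mul_of_nonneg_left ?_ (by positivity)
            exact mul_le_mul_of_nonneg_left hη2 (by positivity)
    have h2 : 8 * (n : ℝ) * (N ^ 2 * (2 / t ^ 2)) ≤ 8 * (2 * t * S) * (N ^ 2 * (2 / t ^ 2)) := by
      gcongr
    have h3 : 8 * (2 * t * S) * (N ^ 2 * (2 / t ^ 2)) = (N * (32 / t)) * (S * N) := by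
      field_simp
      ring
    rw [h3] at h2
    exact le_of_mul_le_mul_right (h1.trans h2) (by positivity)
  have hc := count (Alt n) (fun y z => ∀ j < J, y * z ^ j ∉ EcS n S) (bad n J) (N * (32 / t))
    (by positivity) hgood
  refine hc.trans ?_
  rw [← hN, hinv]
  have hbad := bad_card hfixp hn J
  rw [← hN, ← hq] at hbad
  have hq0 : 0 < q := lt_of_lt_of_le (by positivity) htq
  have hbad2 : ((bad n J).card : ℝ) ≤ N * (8 / t ^ 2) := by
    have h1 : ((bad n J).card : ℝ) * t ^ 6 ≤ (2 * t ^ 2) ^ 2 * 2 * N := by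
      calc ((bad n J).card : ℝ) * t ^ 6 ≤ ((bad n J).card : ℝ) * q :=
            mul_le_mul_of_nonneg_left htq (Nat.cast_nonneg _)
        _ ≤ (J : ℝ) ^ 2 * 2 * N := hbad
        _ ≤ (2 * t ^ 2) ^ 2 * 2 * N := by gcongr
    have h2 : (2 * t ^ 2) ^ 2 * 2 * N = N * (8 / t ^ 2) * t ^ 6 := by
      field_simp
      ring
    rw [h2] at h1
    exact le_of_mul_le_mul_right h1 (by positivity)
  have h3 : (8 : ℝ) / t ^ 2 ≤ 8 / t := by
    apply div_le_div_of_nonneg_left (by norm_num) ht0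
    nlinarith
  calc ((bad n J).card : ℝ) * N + N * (N * (32 / t)) ≤
      (N * (8 / t)) * N + N * (N * (32 / t)) := by
        have h4 : N * (8 / t ^ 2) ≤ N * (8 / t) := mul_le_mul_of_nonneg_left h3 hN0.le
        have h5 := mul_le_mul_of_nonneg_right (hbad2.trans h4) hN0.le
        linarith
    _ = N ^ 2 * (40 / t) := by ring
    _ ≤ N ^ 2 * (50 * (1 / t)) := by
        refine mul_le_mul_of_nonneg_left ?_ (by positivity)
        rw [mul_one_div]
        exact div_le_div_of_nonneg_right (by norm_num) ht0.le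

end Pool.Agent.Helper16.AK.HIT
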