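import Pool.Agent.Helper3.AK.Goals3

/-! Packet AK-NUMF: numbers for the fresh step. -/

namespace Pool.Agent.Helper3.AK

open Filter Topology

namespace NUMF16

/-- The main inequality, after taking exponentials. -/
theorem main_ineq {A N x z : ℝ} {r h T m : ℕ} (hr : 1 ≤ r) (hN : 9 ≤ N) (hA : A = N ^ r)
    (hx0 : 0 ≤ x) (hy : (x ^ h) ^ T ≤ (A ^ 10)⁻¹) (hz0 : 0 ≤ z)
    (hz : A⁻¹ ≤ z ^ (16 * m * T)) (hT : 17 * T ≤ r) :
    (9 / 4) * N ^ r * 2 ^ r * (2 ^ (8 * T) * (2 * x ^ h) ^ T) ≤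
      (N ^ 2)⁻¹ * (z ^ (4 * m) / 4) ^ (4 * T) := by
  have hN0 : 0 < N := by linarith
  have hA0 : 0 < A := by rw [hA]; positivity
  have h1 : (9 / 4 : ℝ) * 2 ^ (r + 17 * T) ≤ A := by
    calc (9 / 4 : ℝ) * 2 ^ (r + 17 * T) ≤ (9 / 4) * 2 ^ (2 * r) := by
          gcongr
          · norm_num
          · omega
      _ = (9 / 4) ^ 1 * 4 ^ r := by rw [pow_mul]; norm_num
      _ ≤ (9 / 4) ^ r * 4 ^ r := by
          gcongr
          norm_num
      _ = 9 ^ r := by rw [← mul_pow]; norm_num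
      _ ≤ N ^ r := by gcongr
      _ = A := hA.symm
  have h2 : N ^ 2 ≤ A ^ 2 := by
    rw [hA]
    refine pow_le_pow_left₀ hN0.le ?_ 2
    calc N = N ^ 1 := (pow_one N).symm
      _ ≤ N ^ r := pow_le_pow_right₀ (by linarith) hr
  have hA1 : 1 ≤ A := by
    rw [hA]
    exact one_le_pow₀ (by linarith)
  have h3 : (9 / 4 : ℝ) * 2 ^ (r + 17 * T) * N ^ 2 ≤ A ^ 8 := by
    calc (9 / 4 : ℝ) * 2 ^ (r + 17 * T) * N ^ 2 ≤ A * A ^ 2 := by gcongr
      _ = A ^ 3 := by ring
      _ ≤ A ^ 8 := pow_le_pow_right₀ hA1 (by norm_num)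
  have hL : (9 / 4) * N ^ r * 2 ^ r * (2 ^ (8 * T) * (2 * x ^ h) ^ T) ≤
      (9 / 4) * A * 2 ^ r * (2 ^ (8 * T) * (2 ^ T * (A ^ 10)⁻¹)) := by
    rw [← hA, mul_pow]
    gcongr
  have hR : (N ^ 2)⁻¹ * (A⁻¹ / 2 ^ (8 * T)) ≤ (N ^ 2)⁻¹ * (z ^ (4 * m) / 4) ^ (4 * T) := by
    have h4 : (z ^ (4 * m) / 4) ^ (4 * T) = z ^ (16 * m * T) / 2 ^ (8 * T) := by
      rw [div_pow, ← pow_mul]
      congr 1
      · congr 1
        ring
      · rw [show (4 : ℝ) = 2 ^ 2 by norm_num, ← pow_mul]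
        congr 1
        ring
    rw [h4]
    gcongr
  refine hL.trans (le_trans ?_ hR)
  have h5 : (9 / 4 : ℝ) * A * 2 ^ r * (2 ^ (8 * T) * (2 ^ T * (A ^ 10)⁻¹)) =
      ((9 / 4 : ℝ) * 2 ^ (r + 17 * T) * N ^ 2) * ((N ^ 2)⁻¹ * (A⁻¹ / 2 ^ (8 * T))) *
        (A ^ 8)⁻¹ := by
    have e1 : (2 : ℝ) ^ (r + 17 * T) = 2 ^ r * 2 ^ (8 * T) * 2 ^ T * 2 ^ (8 * T) := by
      rw [← pow_add, ← pow_add, ← pow_add]
      congr 1
      omega
    rw [e1]
    field_simp
  rw [h5]
  have h6 : 0 ≤ (N ^ 2)⁻¹ * (A⁻¹ / 2 ^ (8 * T)) := by positivity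
  calc ((9 / 4 : ℝ) * 2 ^ (r + 17 * T) * N ^ 2) * ((N ^ 2)⁻¹ * (A⁻¹ / 2 ^ (8 * T))) * (A ^ 8)⁻¹
      ≤ (A ^ 8) * ((N ^ 2)⁻¹ * (A⁻¹ / 2 ^ (8 * T))) * (A ^ 8)⁻¹ := by gcongr
    _ = (N ^ 2)⁻¹ * (A⁻¹ / 2 ^ (8 * T)) := by field_simp

end NUMF16

open NUMF16 in
/-- **NUMF**. -/
theorem numf : S_NUMF := by
  intro k α α' ε hα hαα' hα' hα1 hε hε1
  set γ : ℝ := 1 + α - 2 * α' with hγ
  have hγ0 : 0 < γ := by rw [hγ]; linarith
  have hγ1 : γ ≤ 1 := by rw [hγ]; linarith
  set K₀ : ℝ := 640 / γ with hK₀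
  have hK : 640 ≤ K₀ := by
    rw [hK₀, le_div_iff₀ hγ0]
    nlinarith
  have hKγ : K₀ * γ = 640 := by rw [hK₀]; field_simp
  set C : ℝ := 2 / ε with hC
  have hC2 : 2 ≤ C := by
    rw [hC, le_div_iff₀ hε]
    nlinarith
  have hCε : C * ε = 2 := by rw [hC]; field_simp
  set ε₁ : ℝ := min (1 / 2) (1 / (128 * C * K₀)) with hε₁
  have hε₁0 : 0 < ε₁ := by
    rw [hε₁]
    exact lt_min (by norm_num) (by positivity)
  have hε₁2 : ε₁ ≤ 1 / 2 := min_le_left _ _
  have hε₁3 : 128 * ε₁ * C * K₀ ≤ 1 := by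
    have h1 : ε₁ ≤ 1 / (128 * C * K₀) := min_le_right _ _
    rw [le_div_iff₀ (by positivity)] at h1
    linarith
  refine ⟨ε₁, ε₁ / (1024 * (k + 1)), hε₁0, by linarith, by positivity, ?_, ?_⟩
  · have hk : (0 : ℝ) < (k : ℝ) + 1 := by positivity
    have h1 : √(2 * ((k : ℝ) + 1) * (ε₁ / (1024 * (k + 1)))) ≤ 1 / 32 := by
      rw [Real.sqrt_le_left (by norm_num)]
      have : 2 * ((k : ℝ) + 1) * (ε₁ / (1024 * (k + 1))) = ε₁ / 512 := by
        field_simp
        ring
      rw [this]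
      norm_num
      linarith
    have h2 : √(ε₁ / (1024 * ((k : ℝ) + 1)) / ε₁) ≤ 1 / 32 := by
      rw [Real.sqrt_le_left (by norm_num)]
      have : ε₁ / (1024 * ((k : ℝ) + 1)) / ε₁ = 1 / (1024 * ((k : ℝ) + 1)) := by
        field_simp
      rw [this, div_le_iff₀ (by positivity)]
      have : (0 : ℝ) ≤ k := Nat.cast_nonneg k
      nlinarith
    linarith
  · have e1 : ∀ᶠ n : ℕ in atTop, 68 * K₀ + 32 ≤ (n : ℝ) ^ α :=
      ((tendsto_rpow_atTop hα).comp tendsto_natCast_atTop_atTop).eventually_ge_atTop _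
    have e2 : ∀ᶠ n : ℕ in atTop, 2048 * K₀ ≤ (n : ℝ) ^ (γ / 2) :=
      ((tendsto_rpow_atTop (half_pos hγ0)).comp
        tendsto_natCast_atTop_atTop).eventually_ge_atTop _
    filter_upwards [e1, e2, eventually_ge_atTop 9] with n h1 h2 hn r hr1 hr2
    have hN : (9 : ℝ) ≤ (n : ℝ) := by exact_mod_cast hn
    set N : ℝ := (n : ℝ) with hNdef
    have hN0 : 0 < N := by linarith
    set R : ℕ := ⌊N ^ α⌋₊ with hR
    have hRle : (R : ℝ) ≤ N ^ α := Nat.floor_le (by positivity)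
    have hRge : N ^ α - 1 < R := by
      have := Nat.lt_floor_add_one (N ^ α)
      rw [← hR] at this
      linarith
    have hRhalf : N ^ α ≤ 2 * R := by linarith
    have hR34 : 34 * K₀ + 15 ≤ R := by linarith
    have hR16 : 16 ≤ R := by
      have : (16 : ℝ) ≤ R := by linarith
      exact_mod_cast this
    have hRpos : (0 : ℝ) < R := by linarith
    set ℓ : ℝ := Real.log N with hℓ
    have hℓ1 : 1 ≤ ℓ := by
      rw [hℓ, Real.le_log_iff_exp_le hN0]
      have := Real.exp_one_lt_d9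
      linarith
    have hrR : (R : ℝ) < r := by exact_mod_cast hr1
    have hrpos : (0 : ℝ) < r := by linarith
    have hr1' : 1 ≤ r := by omega
    set T : ℕ := ⌈K₀ * r / R⌉₊ with hT
    set m : ℕ := ⌈C * R * ℓ⌉₊ with hm
    have hKr : 1 ≤ K₀ * r / R := by
      rw [le_div_iff₀ hRpos]
      nlinarith
    have hT1 : K₀ * r / R ≤ T := Nat.le_ceil _
    have hT2 : (T : ℝ) ≤ 2 * (K₀ * r / R) := by
      have := (Nat.ceil_lt_add_one (a := K₀ * r / R) (by positivity)).le
      rw [← hT] at this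
      linarith
    have hm1 : C * R * ℓ ≤ m := Nat.le_ceil _
    have hCR : 1 ≤ C * R * ℓ := by
      have h3 : 1 ≤ C * R := by nlinarith
      nlinarith
    have hm2 : (m : ℝ) ≤ 2 * (C * R * ℓ) := by
      have := (Nat.ceil_lt_add_one (a := C * R * ℓ) (by positivity)).le
      rw [← hm] at this
      linarith
    have hTpos : 1 ≤ T := by
      have : (1 : ℝ) ≤ T := hKr.trans hT1
      exact_mod_cast this
    -- the number `x`
    have hexpN : Real.exp ℓ = N := Real.exp_log hN0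
    have hx : 64 * (r : ℝ) * (8 * T) / N ≤ Real.exp (-(γ / 2) * ℓ) := by
      have h3 : (r : ℝ) * r ≤ N ^ α' * N ^ α' := mul_le_mul hr2 hr2 hrpos.le (by positivity)
      have h4 : (r : ℝ) * T ≤ 4 * K₀ * (N ^ α' * N ^ α' / N ^ α) := by
        calc (r : ℝ) * T ≤ r * (2 * (K₀ * r / R)) := by gcongr
          _ = 2 * K₀ * (r * r) / R := by ring
          _ ≤ 2 * K₀ * (N ^ α' * N ^ α') / R := by gcongr
          _ ≤ 2 * K₀ * (N ^ α' * N ^ α') / (N ^ α / 2) := by
              gcongr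
              linarith
          _ = _ := by field_simp; ring
      have h5 : N ^ α' * N ^ α' / N ^ α = N * N ^ (-γ) := by
        rw [← Real.rpow_add hN0, ← Real.rpow_sub hN0]
        nth_rw 2 [← Real.rpow_one N]
        rw [← Real.rpow_add hN0]
        congr 1
        rw [hγ]
        ring
      rw [h5] at h4
      have h6 : 64 * (r : ℝ) * (8 * T) / N ≤ 2048 * K₀ * N ^ (-γ) := by
        rw [div_le_iff₀ hN0]
        nlinarith
      have h7 : N ^ (-γ) = N ^ (-(γ / 2)) * N ^ (-(γ / 2)) := by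
        rw [← Real.rpow_add hN0]
        congr 1
        ring
      have h8 : 2048 * K₀ * N ^ (-(γ / 2)) ≤ 1 := by
        rw [Real.rpow_neg hN0.le, ← div_eq_mul_inv, div_le_one (by positivity)]
        exact h2
      have h9 : Real.exp (-(γ / 2) * ℓ) = N ^ (-(γ / 2)) := by
        rw [Real.rpow_def_of_pos hN0, mul_comm]
      rw [h9]
      calc 64 * (r : ℝ) * (8 * T) / N ≤ 2048 * K₀ * N ^ (-γ) := h6
        _ = (2048 * K₀ * N ^ (-(γ / 2))) * N ^ (-(γ / 2)) := by rw [h7]; ring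
        _ ≤ 1 * N ^ (-(γ / 2)) := by gcongr
        _ = _ := one_mul _
    have hx1 : 64 * (r : ℝ) * (8 * T) / N ≤ 1 := by
      refine hx.trans ?_
      rw [Real.exp_le_one_iff]
      nlinarith
    have hrT : 512 * ((r : ℝ) * T) ≤ N := by
      rw [div_le_one hN0] at hx1
      linarith
    refine ⟨m, T, hR16, hTpos, ?_, ?_, ?_, ?_⟩
    · have h3 : (5 * r : ℝ) ≤ N := by
        have : (1 : ℝ) ≤ T := by exact_mod_cast hTpos
        nlinarith
      have h4 : ((5 * r : ℕ) : ℝ) ≤ ((n : ℕ) : ℝ) := by push_cast; exact h3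
      exact_mod_cast h4
    · have h3 : (2 * r * (8 * T) + 2 : ℝ) ≤ N := by nlinarith
      have h4 : ((2 * r * (8 * T) + 2 : ℕ) : ℝ) ≤ ((n : ℕ) : ℝ) := by push_cast; exact h3
      exact_mod_cast h4
    · -- `(1 - ε / 2) ^ m ≤ 1 / (n)_R`
      have hRn : R ≤ n := by
        have h3 : (R : ℝ) ≤ N := by
          refine hRle.trans ?_
          calc N ^ α ≤ N ^ (1 : ℝ) :=
                Real.rpow_le_rpow_of_exponent_le (by linarith) hα1.le
            _ = N := Real.rpow_one N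
        have h4 : ((R : ℕ) : ℝ) ≤ ((n : ℕ) : ℝ) := h3
        exact_mod_cast h4
      have hdpos : (0 : ℝ) < (n.descFactorial R : ℝ) := by
        have := Nat.descFactorial_pos.2 hRn
        exact_mod_cast this
      have hdle : (n.descFactorial R : ℝ) ≤ N ^ R := by
        have := Nat.descFactorial_le_pow n R
        have h3 : ((n.descFactorial R : ℕ) : ℝ) ≤ ((n ^ R : ℕ) : ℝ) := Nat.cast_le.2 this
        push_cast at h3
        exact h3
      have h3 : (1 - ε / 2) ^ m ≤ Real.exp (-(ε / 2) * m) := by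
        have h4 : 1 - ε / 2 ≤ Real.exp (-(ε / 2)) := by
          have := Real.add_one_le_exp (-(ε / 2))
          linarith
        calc (1 - ε / 2) ^ m ≤ (Real.exp (-(ε / 2))) ^ m :=
              pow_le_pow_left₀ (by linarith) h4 m
          _ = Real.exp (-(ε / 2) * m) := by rw [← Real.exp_nat_mul]; congr 1; ring
      have h5 : Real.exp (-(ε / 2) * m) ≤ Real.exp (-(R * ℓ)) := by
        rw [Real.exp_le_exp]
        have h6 : (ε / 2) * (C * R * ℓ) ≤ (ε / 2) * m := by gcongr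
        have h7 : (ε / 2) * (C * R * ℓ) = R * ℓ := by
          calc (ε / 2) * (C * R * ℓ) = (C * ε) / 2 * (R * ℓ) := by ring
            _ = R * ℓ := by rw [hCε]; ring
        linarith
      have h8 : Real.exp (-(R * ℓ)) = 1 / N ^ R := by
        rw [Real.exp_neg, Real.exp_nat_mul, hexpN, one_div]
      rw [h8] at h5
      refine (h3.trans h5).trans ?_
      exact one_div_le_one_div_of_le hdpos hdle
    · have hA : (N ^ r : ℝ) = Real.exp (r * ℓ) := by rw [Real.exp_nat_mul, hexpN]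
      have hx0 : 0 ≤ 64 * (r : ℝ) * (8 * T) / N := by positivity
      refine main_ineq (A := N ^ r) (m := m) hr1' hN rfl hx0 ?_ (by linarith) ?_ ?_
      · -- `x` to the power
        have hdiv : (R : ℝ) / 32 ≤ ((R / 16 : ℕ) : ℝ) := by
          have h3 : R ≤ 32 * (R / 16) := by omega
          have h4 : (R : ℝ) ≤ ((32 * (R / 16) : ℕ) : ℝ) := Nat.cast_le.2 h3
          push_cast at h4
          linarith
        calc ((64 * (r : ℝ) * (8 * T) / N) ^ (R / 16)) ^ T ≤
              ((Real.exp (-(γ / 2) * ℓ)) ^ (R / 16)) ^ T := by gcongr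
          _ = Real.exp (-(γ / 2) * ℓ * (((R / 16 : ℕ) : ℝ) * T)) := by
              rw [← pow_mul, ← Real.exp_nat_mul]
              congr 1
              push_cast
              ring
          _ ≤ Real.exp (-(10 * (r * ℓ))) := by
              rw [Real.exp_le_exp]
              have h3 : K₀ * r / 32 ≤ ((R / 16 : ℕ) : ℝ) * T := by
                calc K₀ * r / 32 = (R / 32) * (K₀ * r / R) := by field_simp
                  _ ≤ ((R / 16 : ℕ) : ℝ) * T := by gcongr
              have h4 : 10 * (r * ℓ) = (γ / 2) * ℓ * (K₀ * r / 32) := by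
                calc 10 * (r * ℓ) = (K₀ * γ) / 64 * (r * ℓ) := by rw [hKγ]; ring
                  _ = _ := by ring
              have h5 : (γ / 2) * ℓ * (K₀ * r / 32) ≤
                  (γ / 2) * ℓ * (((R / 16 : ℕ) : ℝ) * T) := by gcongr
              linarith
          _ = ((N ^ r) ^ 10)⁻¹ := by
              rw [hA, Real.exp_neg, ← Real.exp_nat_mul]
              norm_num
      · -- the power of `1 - ε₁`
        have h3 : Real.exp (-(2 * ε₁)) ≤ 1 - ε₁ := by
          have h4 : 1 + 2 * ε₁ ≤ Real.exp (2 * ε₁) := by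
            have := Real.add_one_le_exp (2 * ε₁)
            linarith
          rw [Real.exp_neg, inv_le_comm₀ (Real.exp_pos _) (by linarith)]
          refine le_trans ?_ h4
          rw [inv_le_iff_one_le_mul₀ (by linarith)]
          nlinarith
        calc (N ^ r)⁻¹ = Real.exp (-(r * ℓ)) := by rw [hA, Real.exp_neg]
          _ ≤ Real.exp (-(2 * ε₁) * (16 * m * T)) := by
              rw [Real.exp_le_exp]
              have h4 : (m : ℝ) * T ≤ 4 * C * K₀ * (r * ℓ) := by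
                calc (m : ℝ) * T ≤ (2 * (C * R * ℓ)) * (2 * (K₀ * r / R)) := by gcongr
                  _ = 4 * C * K₀ * (r * ℓ) := by field_simp; ring
              have h5 : (2 * ε₁) * (16 * m * T) ≤ r * ℓ := by
                calc (2 * ε₁) * (16 * m * T) = 32 * ε₁ * ((m : ℝ) * T) := by ring
                  _ ≤ 32 * ε₁ * (4 * C * K₀ * (r * ℓ)) := by gcongr
                  _ = (128 * ε₁ * C * K₀) * (r * ℓ) := by ring
                  _ ≤ 1 * (r * ℓ) := by gcongr
                  _ = r * ℓ := one_mul _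
              linarith
          _ = (Real.exp (-(2 * ε₁))) ^ (16 * m * T) := by
              rw [← Real.exp_nat_mul]
              congr 1
              push_cast
              ring
          _ ≤ (1 - ε₁) ^ (16 * m * T) := by gcongr
      · have h3 : (17 * T : ℝ) ≤ r := by
          calc (17 * T : ℝ) ≤ 17 * (2 * (K₀ * r / R)) := by gcongr
            _ = (34 * K₀) / R * r := by ring
            _ ≤ 1 * r := by
                gcongr
                rw [div_le_one hRpos]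
                linarith
            _ = r := one_mul _
        have h4 : ((17 * T : ℕ) : ℝ) ≤ (r : ℝ) := by push_cast; exact h3
        exact_mod_cast h4

end Pool.Agent.Helper3.AK
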